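import Pool.Agent.Helper11.LE.Goals3
import Pool.Agent.Helper35.RD.RSP
import Pool.Agent.Helper79.RD.GOO

/-!
# Project LE (MP_fc6b1e_nt), packet LE-FSIG
-/

namespace Pool.Agent.Helper32.LE

open NumberField Polynomial Module IsDedekindDomain TensorProduct Pool.Agent.Helper51.SigLeo
open Pool.Agent.Helper51.RP Pool.Agent.Helper42.RD Pool.Agent.Helper11.LE
open Pool.Agent.Helper35.RD (totallyComplex_of_cm two_mul_ncard_cm tset_ncard tset_closed)

theorem rank_cm {K Ω k : Type} [Field K] [NumberField K] [Field Ω] [CharZero Ω]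
    [IsAlgClosed Ω] [NormedField k] (ιinf : Ω →+* ℂ) (ιp : Ω →+* k)
    (S : Set (K →+* ℂ)) (hS : IsCMType S) : Units.rank K + 1 ≤ (TSet ιinf ιp S).ncard := by
  have htc : IsTotallyComplex K := totallyComplex_of_cm hS
  have h1 : finrank ℚ K = 2 * S.ncard := two_mul_ncard_cm hS
  rw [tset_ncard]
  have h2 : finrank ℚ K = 2 * InfinitePlace.nrComplexPlaces K := IsTotallyComplex.finrank K
  have h3 : Fintype.card (InfinitePlace K) = InfinitePlace.nrComplexPlaces K := by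
    rw [InfinitePlace.card_eq_nrRealPlaces_add_nrComplexPlaces,
      IsTotallyComplex.nrRealPlaces_eq_zero, zero_add]
  have h4 : 0 < Fintype.card (InfinitePlace K) := Fintype.card_pos
  unfold Units.rank
  omega

theorem f_sig (h1 : F_INF) : Pool.Agent.Helper11.LE.F_SIG := by
  intro p hpF hp2 K _ _ ιinf ιp L S hS hord
  have hp : p.Prime := hpF.out
  have hchar : CharZero (AlgebraicClosure K) :=
    charZero_of_injective_algebraMap (algebraMap K (AlgebraicClosure K)).injective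
  have hne : Nonempty (AlgebraicClosure ℚ →+* ℂ_[p]) :=
    Pool.Agent.Helper50.RS.nonempty_hom ℚ ℂ_[p]
  have hcl : PlaceClosed (TSet ιinf ιp S) := tset_closed ιinf ιp S hord
  refine (h1 p hp2 ℂ_[p] hne L K (TSet ιinf ιp S) hcl (rank_cm ιinf ιp S hS)).mono ?_
  rintro N ⟨n1, n2, n3⟩
  refine ⟨n1, n2, fun χ hχ x hx => ?_⟩
  have hN0 : 0 < finrank K N := by rw [n1]; exact hp.pos
  have hfN : FiniteDimensional K N := FiniteDimensional.of_finrank_pos hN0
  have hnfN : NumberField N := NumberField.of_module_finite K N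
  have hcard : Nat.card (N ≃ₐ[K] N) = p := by rw [IsGalois.card_aut_eq_finrank, n1]
  obtain ⟨γ, hγ⟩ : ∃ γ : N ≃ₐ[K] N, orderOf γ = p := by
    have h5 : 1 < Nat.card (N ≃ₐ[K] N) := by rw [hcard]; exact hp.one_lt
    have h6 : Nontrivial (N ≃ₐ[K] N) := Finite.one_lt_card_iff_nontrivial.1 h5
    obtain ⟨γ, hγ⟩ := exists_ne (1 : N ≃ₐ[K] N)
    refine ⟨γ, orderOf_eq_prime ?_ hγ⟩
    rw [← hcard]
    exact pow_card_eq_one'
  have hχγ : IsPrimitiveRoot ((χ γ : ℂ_[p]ˣ) : ℂ_[p]) p := by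
    have e1 : orderOf (χ γ) = p := by rw [orderOf_injective χ hχ γ, hγ]
    have e2 : orderOf ((χ γ : ℂ_[p]ˣ) : ℂ_[p]) = p := by rw [orderOf_units, e1]
    have e3 := IsPrimitiveRoot.orderOf ((χ γ : ℂ_[p]ˣ) : ℂ_[p])
    rwa [e2] at e3
  refine n3 γ _ hχγ (eChi (finrank K N) χ unitsHom x) ?_ ?_
  · rw [Pool.Agent.Helper50.RS.eig_eChi]
  · intro τ' hτ'
    apply hx
    obtain ⟨σ, hσ⟩ := exists_lift_embedding ιp τ'
    obtain ⟨σ₀, g1, g2⟩ := hτ'
    refine ⟨σ, ?_, ?_⟩
    · have g3 : σ.comp (algebraMap K N) = σ₀ := by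
        apply Pool.Agent.Helper50.RS.comp_inj ιp
        show ιp.comp (σ.comp (algebraMap K _)) = ιp.comp σ₀
        rw [← g2, ← hσ]
        rfl
      rw [g3]
      exact g1
    · rw [hσ]

end Pool.Agent.Helper32.LE
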