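import Pool.Agent.Helper11.LE.Goals2
import Pool.Agent.Helper33.RD.OMG

/-!
# Project LE (MP_fc6b1e_nt), packet LE-OME: the `ω`-projector
-/

namespace Pool.Agent.Helper32.LE

open NumberField Module IsDedekindDomain
open Pool.Agent.Helper51.RP Pool.Agent.Helper42.RD Pool.Agent.Helper90.RP.Dual
open Pool.Agent.Helper11.LE
open Pool.Agent.Helper33.RD (ordv_pow)

section cg

variable {K K₁ : Type} [Field K] [NumberField K] [Field K₁] [NumberField K₁] [Algebra K K₁]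

/-- The image of an ideal under an automorphism. -/
noncomputable def cg (σ : K₁ ≃ₐ[K] K₁) (I : Ideal (𝓞 K₁)) : Ideal (𝓞 K₁) :=
  I.map (RingOfIntegers.mapRingHom (σ : K₁ →+* K₁))

omit [NumberField K] [NumberField K₁] in
theorem cg_mul_apply (σ τ : K₁ ≃ₐ[K] K₁) (I : Ideal (𝓞 K₁)) : cg (σ * τ) I = cg σ (cg τ I) := by
  unfold cg
  rw [Ideal.map_map]
  rfl

omit [NumberField K] [NumberField K₁] in
theorem cg_one (I : Ideal (𝓞 K₁)) : cg (1 : K₁ ≃ₐ[K] K₁) I = I := by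
  exact Ideal.map_id I

omit [NumberField K] [NumberField K₁] in
theorem cg_mul (σ : K₁ ≃ₐ[K] K₁) (I J : Ideal (𝓞 K₁)) : cg σ (I * J) = cg σ I * cg σ J :=
  Ideal.map_mul _ _ _

omit [NumberField K] [NumberField K₁] in
theorem cg_span (σ : K₁ ≃ₐ[K] K₁) (α : 𝓞 K₁) :
    cg σ (Ideal.span {α}) = Ideal.span {RingOfIntegers.mapRingHom (σ : K₁ →+* K₁) α} := by
  unfold cg
  rw [Ideal.map_span, Set.image_singleton]

omit [NumberField K] [NumberField K₁] in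
theorem cg_bot (σ : K₁ ≃ₐ[K] K₁) : cg σ (⊥ : Ideal (𝓞 K₁)) = ⊥ := Ideal.map_bot

omit [NumberField K] [NumberField K₁] in
theorem cg_top (σ : K₁ ≃ₐ[K] K₁) : cg σ (⊤ : Ideal (𝓞 K₁)) = ⊤ := Ideal.map_top _

omit [NumberField K] [NumberField K₁] in
theorem cg_inv (σ : K₁ ≃ₐ[K] K₁) (I : Ideal (𝓞 K₁)) : cg σ⁻¹ (cg σ I) = I := by
  rw [← cg_mul_apply, inv_mul_cancel, cg_one]

omit [NumberField K] [NumberField K₁] in
theorem cg_ne (σ : K₁ ≃ₐ[K] K₁) {I : Ideal (𝓞 K₁)} (hI : I ≠ ⊥) : cg σ I ≠ ⊥ := by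
  intro h
  apply hI
  rw [← cg_inv σ I, h, cg_bot]

omit [NumberField K] [NumberField K₁] in
theorem cg_cop {𝔫 : Ideal (𝓞 K₁)} (hst : ∀ σ : K₁ ≃ₐ[K] K₁, cg σ 𝔫 = 𝔫) (σ : K₁ ≃ₐ[K] K₁)
    {I : Ideal (𝓞 K₁)} (hI : I ⊔ 𝔫 = ⊤) : cg σ I ⊔ 𝔫 = ⊤ := by
  have h1 := congrArg (cg σ) hI
  rw [cg_top] at h1
  rw [← h1]
  unfold cg
  rw [Ideal.map_sup]
  congr 1
  exact (hst σ).symm

omit [NumberField K] [NumberField K₁] in
theorem cg_prod (τ : K₁ ≃ₐ[K] K₁) {ι : Type*} (s : Finset ι) (f : ι → Ideal (𝓞 K₁)) :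
    cg τ (∏ i ∈ s, f i) = ∏ i ∈ s, cg τ (f i) := by
  classical
  induction s using Finset.induction_on with
  | empty => simp only [Finset.prod_empty, Ideal.one_eq_top, cg_top]
  | insert i s hi ih => rw [Finset.prod_insert hi, Finset.prod_insert hi, cg_mul, ih]

theorem cg_relNorm (σ : K₁ ≃ₐ[K] K₁) (I : Ideal (𝓞 K₁)) :
    Ideal.relNorm (𝓞 K) (cg σ I) = Ideal.relNorm (𝓞 K) I :=
  Ideal.relNorm_map_algEquiv (RingOfIntegers.mapAlgEquiv σ : 𝓞 K₁ ≃ₐ[𝓞 K] 𝓞 K₁) I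

/-- The image of a prime under an automorphism. -/
noncomputable def cp (σ : K₁ ≃ₐ[K] K₁) (P : HeightOneSpectrum (𝓞 K₁)) : HeightOneSpectrum (𝓞 K₁) :=
  HeightOneSpectrum.equivOfRingEquiv (RingOfIntegers.mapRingEquiv (σ : K₁ ≃+* K₁)) P

omit [NumberField K] in
theorem cp_ideal (σ : K₁ ≃ₐ[K] K₁) (P : HeightOneSpectrum (𝓞 K₁)) :
    (cp σ P).asIdeal = cg σ P.asIdeal := by
  show P.asIdeal.comap ((RingOfIntegers.mapRingEquiv (σ : K₁ ≃+* K₁)).symm : 𝓞 K₁ →+* 𝓞 K₁) = _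
  exact Ideal.comap_symm (RingOfIntegers.mapRingEquiv (σ : K₁ ≃+* K₁))

omit [NumberField K] in
theorem cp_val (σ : K₁ ≃ₐ[K] K₁) (P : HeightOneSpectrum (𝓞 K₁)) (y : K₁) :
    (cp σ P).valuation K₁ (σ y) = P.valuation K₁ y := by
  obtain ⟨⟨n, d⟩, rfl⟩ := IsLocalization.mk'_surjective (nonZeroDivisors (𝓞 K₁)) y
  have h1 : ∀ r : 𝓞 K₁, (cp σ P).valuation K₁ (σ (algebraMap (𝓞 K₁) K₁ r)) =
      P.valuation K₁ (algebraMap (𝓞 K₁) K₁ r) := by
    intro r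
    have h2 : σ (algebraMap (𝓞 K₁) K₁ r) =
      algebraMap (𝓞 K₁) K₁ (RingOfIntegers.mapRingEquiv (σ : K₁ ≃+* K₁) r) := rfl
    rw [h2, HeightOneSpectrum.valuation_of_algebraMap, HeightOneSpectrum.valuation_of_algebraMap,
      intVal_conj (RingOfIntegers.mapRingEquiv (σ : K₁ ≃+* K₁)) P (cp σ P) (cp_ideal σ P)]
  show (cp σ P).valuation K₁ (σ (IsLocalization.mk' K₁ n d)) =
    P.valuation K₁ (IsLocalization.mk' K₁ n d)
  rw [IsFractionRing.mk'_eq_div, map_div₀, map_div₀, map_div₀, h1, h1]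

omit [NumberField K] in
theorem cp_eq (σ : K₁ ≃ₐ[K] K₁) {P W : HeightOneSpectrum (𝓞 K₁)}
    (h : ∀ y : K₁, W.valuation K₁ (σ y) = P.valuation K₁ y) : W = cp σ P := by
  apply conj_unique
  intro y
  have h1 := h (σ⁻¹ y)
  have h2 := cp_val σ P (σ⁻¹ y)
  have h3 : σ (σ⁻¹ y) = y := AlgEquiv.apply_symm_apply σ y
  rw [h3] at h1 h2
  rw [h1, h2]

omit [NumberField K] in
theorem cp_mul (σ τ : K₁ ≃ₐ[K] K₁) (P : HeightOneSpectrum (𝓞 K₁)) :
    cp (σ * τ) P = cp σ (cp τ P) := by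
  apply HeightOneSpectrum.ext
  rw [cp_ideal, cp_ideal, cp_ideal, cg_mul_apply]

omit [NumberField K] in
theorem cp_one (P : HeightOneSpectrum (𝓞 K₁)) : cp (1 : K₁ ≃ₐ[K] K₁) P = P := by
  apply HeightOneSpectrum.ext
  rw [cp_ideal, cg_one]

omit [NumberField K] in
theorem conj_iff (W Q : HeightOneSpectrum (𝓞 K₁)) :
    ConjP K W Q ↔ ∃ σ : K₁ ≃ₐ[K] K₁, W = cp σ Q := by
  constructor
  · rintro ⟨g, hg⟩
    exact ⟨g, cp_eq g hg⟩
  · rintro ⟨g, rfl⟩
    exact ⟨g, cp_val g Q⟩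

omit [NumberField K] in
theorem free_inj {Q : HeightOneSpectrum (𝓞 K₁)} (hQ : FreeP K Q) {σ τ : K₁ ≃ₐ[K] K₁}
    (h : cp σ Q = cp τ Q) : σ = τ := by
  have h1 : τ⁻¹ * σ = 1 := by
    apply hQ
    intro y
    have h2 : Q = cp (τ⁻¹ * σ) Q := by
      rw [cp_mul, h, ← cp_mul, inv_mul_cancel, cp_one]
    have h3 := cp_val (τ⁻¹ * σ) Q y
    rw [← h2] at h3
    exact h3
  exact (inv_mul_eq_one.1 h1).symm

omit [NumberField K] in
theorem ordv_cp (σ : K₁ ≃ₐ[K] K₁) (W : HeightOneSpectrum (𝓞 K₁)) (y : K₁) :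
    ordv W (σ y) = ordv (cp σ⁻¹ W) y := by
  have h1 := cp_val σ (cp σ⁻¹ W) y
  rw [← cp_mul, mul_inv_cancel, cp_one] at h1
  unfold ordv
  rw [h1]

end cg

section fam

variable {p : ℕ} {F : Type} [Field F] [NumberField F] {𝔪 : Ideal (𝓞 F)} {n : ℕ}
  {η : Fin n → Ideal (𝓞 F) → ZMod p}

omit [NumberField F] in
theorem cop_mul' {I J : Ideal (𝓞 F)} (hI : I ⊔ 𝔪 = ⊤) (hJ : J ⊔ 𝔪 = ⊤) : I * J ⊔ 𝔪 = ⊤ := by
  rw [← Ideal.isCoprime_iff_sup_eq] at *
  exact IsCoprime.mul_left hI hJ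

omit [NumberField F] in
theorem cop_pow {I : Ideal (𝓞 F)} (hI : I ⊔ 𝔪 = ⊤) (k : ℕ) : I ^ k ⊔ 𝔪 = ⊤ := by
  rw [← Ideal.isCoprime_iff_sup_eq] at *
  exact IsCoprime.pow_left hI

theorem fam_one (h : Fam p 𝔪 n η) (j : Fin n) : η j 1 = 0 := by
  have h1 := h.ray j 1 one_ne_zero (by simp)
  rwa [Ideal.span_singleton_one, ← Ideal.one_eq_top] at h1

theorem cop_prod {ι : Type*} (s : Finset ι) (f : ι → Ideal (𝓞 F))
    (h0 : ∀ i ∈ s, f i ≠ ⊥ ∧ f i ⊔ 𝔪 = ⊤) :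
    ∏ i ∈ s, f i ≠ ⊥ ∧ (∏ i ∈ s, f i) ⊔ 𝔪 = ⊤ := by
  classical
  induction s using Finset.induction_on with
  | empty => simp
  | insert i s hi ih =>
    rw [Finset.prod_insert hi]
    have h1 := ih fun j hj => h0 j (Finset.mem_insert_of_mem hj)
    have h2 := h0 i (Finset.mem_insert_self i s)
    exact ⟨mul_ne_zero h2.1 h1.1, cop_mul' h2.2 h1.2⟩

theorem fam_prod (h : Fam p 𝔪 n η) (j : Fin n) {ι : Type*} (s : Finset ι) (f : ι → Ideal (𝓞 F))
    (h0 : ∀ i ∈ s, f i ≠ ⊥ ∧ f i ⊔ 𝔪 = ⊤) : η j (∏ i ∈ s, f i) = ∑ i ∈ s, η j (f i) := by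
  classical
  induction s using Finset.induction_on with
  | empty => simpa using fam_one h j
  | insert i s hi ih =>
    rw [Finset.prod_insert hi, Finset.sum_insert hi]
    have h3 := fun j hj => h0 j (Finset.mem_insert_of_mem hj)
    have h1 := cop_prod s f h3
    have h2 := h0 i (Finset.mem_insert_self i s)
    rw [h.mul j _ _ h2.1 h1.1 h2.2 h1.2, ih h3]

theorem fam_pow (h : Fam p 𝔪 n η) (j : Fin n) {I : Ideal (𝓞 F)} (hI : I ≠ ⊥) (hI' : I ⊔ 𝔪 = ⊤)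
    (k : ℕ) : η j (I ^ k) = k * η j I := by
  induction k with
  | zero => simpa using fam_one h j
  | succ k ih =>
    rw [pow_succ, h.mul j _ _ (pow_ne_zero k hI) hI (cop_pow hI' k) hI', ih]
    push_cast
    ring

end fam

section exps

variable {p : ℕ} [hp : Fact p.Prime] {K K₁ : Type} [Field K] [Field K₁] [NumberField K₁]
  [Algebra K K₁] {ε : K₁}

omit [NumberField K₁] in
theorem exists_exp (hε : IsPrimitiveRoot ε p) : ∃ n : (K₁ ≃ₐ[K] K₁) → ℕ,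
    (∀ σ, σ ε = ε ^ n σ) ∧ n 1 = 1 ∧
      ∀ σ τ, ∃ k : ℤ, (n (σ * τ) : ℤ) = n σ * n τ + p * k := by
  classical
  have hp0 : p ≠ 0 := hp.out.ne_zero
  have hex : ∀ σ : K₁ ≃ₐ[K] K₁, ∃ m : ℕ, ε ^ m = σ ε := by
    intro σ
    obtain ⟨i, -, hi⟩ := hε.eq_pow_of_pow_eq_one (ξ := σ ε)
      (by rw [← map_pow, hε.pow_eq_one, map_one])
    exact ⟨i, hi⟩
  choose n₀ hn₀ using hex
  let n : (K₁ ≃ₐ[K] K₁) → ℕ := fun σ => if σ = 1 then 1 else n₀ σ
  have hn : ∀ σ, σ ε = ε ^ (n σ) := by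
    intro σ
    by_cases h : σ = 1
    · simp only [n, h, if_true, pow_one]; rfl
    · simp only [n, if_neg h]; exact (hn₀ σ).symm
  have hn1 : n 1 = 1 := by simp [n]
  refine ⟨n, hn, hn1, ?_⟩
  intro σ τ
  have h1 : ε ^ (n (σ * τ)) = ε ^ (n σ * n τ) := by
    rw [← hn (σ * τ)]
    show σ (τ ε) = _
    rw [hn τ, map_pow, hn σ, ← pow_mul]
  have h2 : n (σ * τ) ≡ n σ * n τ [MOD p] := by
    obtain ⟨u, hu⟩ := hε.isUnit hp0
    rw [← hu] at h1
    have h4 : u ^ (n (σ * τ)) = u ^ (n σ * n τ) := by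
      apply Units.ext
      push_cast
      exact h1
    have h5 : IsPrimitiveRoot u p := IsPrimitiveRoot.coe_units_iff.1 (by rw [hu]; exact hε)
    rw [h5.eq_orderOf]
    exact pow_eq_pow_iff_modEq.1 h4
  have h3 : (p : ℤ) ∣ (n (σ * τ) : ℤ) - ((n σ * n τ : ℕ) : ℤ) :=
    (Nat.modEq_iff_dvd.1 h2.symm)
  obtain ⟨k, hk⟩ := h3
  refine ⟨k, ?_⟩
  push_cast at hk
  linarith

omit [NumberField K₁] hp in
theorem om_prod [Fintype (K₁ ≃ₐ[K] K₁)] {n : (K₁ ≃ₐ[K] K₁) → ℕ} (hn : ∀ σ, σ ε = ε ^ n σ)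
    (hnm : ∀ σ τ, ∃ k : ℤ, (n (σ * τ) : ℤ) = n σ * n τ + p * k) {b : K₁} (hb : b ≠ 0) :
    OmType p K ε (∏ σ : K₁ ≃ₐ[K] K₁, σ b ^ (n σ⁻¹)) := by
  classical
  have hsbK : ∀ σ : K₁ ≃ₐ[K] K₁, σ b ≠ 0 := fun σ =>
    (map_ne_zero_iff _ (AlgEquiv.injective σ)).2 hb
  intro τ
  choose k hk using fun ρ : K₁ ≃ₐ[K] K₁ => hnm ρ⁻¹ τ
  refine ⟨n τ, ∏ ρ : K₁ ≃ₐ[K] K₁, ρ b ^ (k ρ), hn τ, ?_⟩
  rw [map_prod]
  have h1 : ∏ σ : K₁ ≃ₐ[K] K₁, τ (σ b ^ (n σ⁻¹)) =
      ∏ ρ : K₁ ≃ₐ[K] K₁, ρ b ^ (n (ρ⁻¹ * τ)) := by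
    apply Fintype.prod_equiv (Equiv.mulLeft τ)
    intro σ
    rw [map_pow]
    have h2 : ((Equiv.mulLeft τ) σ)⁻¹ * τ = σ⁻¹ := by
      rw [Equiv.coe_mulLeft]; group
    rw [h2]
    rfl
  rw [h1, ← Finset.prod_pow, ← Finset.prod_pow, ← Finset.prod_mul_distrib]
  apply Finset.prod_congr rfl
  intro ρ _
  rw [← zpow_natCast (ρ b) (n (ρ⁻¹ * τ)), hk ρ, zpow_add₀ (hsbK ρ)]
  congr 1
  · rw [← pow_mul, ← zpow_natCast]
    push_cast
    rfl
  · rw [← zpow_natCast, ← zpow_mul, mul_comm]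

theorem ordv_prod (W : HeightOneSpectrum (𝓞 K₁)) {ι : Type*} (s : Finset ι) (f : ι → K₁)
    (h0 : ∀ i ∈ s, f i ≠ 0) : ordv W (∏ i ∈ s, f i) = ∑ i ∈ s, ordv W (f i) := by
  classical
  induction s using Finset.induction_on with
  | empty => simp [ordv]
  | insert i s hi ih =>
    rw [Finset.prod_insert hi, Finset.sum_insert hi, ordv_mul W (h0 i (Finset.mem_insert_self i s))
      (Finset.prod_ne_zero_iff.2 fun j hj => h0 j (Finset.mem_insert_of_mem hj)),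
      ih fun j hj => h0 j (Finset.mem_insert_of_mem hj)]

end exps

theorem l_ome (h1 : L_RCF) (h2 : L_CYC) : Pool.Agent.Helper11.LE.L_OME := by
  classical
  intro p hp K K₁ _ _ _ _ _ ε hC 𝔫 h𝔫
  have hGal := hC.gal
  obtain ⟨-, hg2, -, -⟩ := h2 p K K₁ ε hC
  obtain ⟨n, hn, hn1, hnm⟩ := exists_exp (K := K) hC.prim
  have : FiniteDimensional K K₁ := inferInstance
  have hcard : Fintype.card (K₁ ≃ₐ[K] K₁) = finrank K K₁ := by
    rw [← Nat.card_eq_fintype_card, IsGalois.card_aut_eq_finrank]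
  set g : ℕ := Fintype.card (K₁ ≃ₐ[K] K₁) with hgdef
  have hgp : g.Coprime p := by rw [hcard]; exact hg2
  have hg0 : ((g : ℕ) : ZMod p) ≠ 0 := by
    intro h
    rw [ZMod.natCast_eq_zero_iff] at h
    exact hp.out.one_lt.ne' (Nat.Coprime.eq_one_of_dvd hgp.symm h)
  -- the exponents in `ZMod p`
  set N : (K₁ ≃ₐ[K] K₁) → ZMod p := fun σ => ((n σ : ℕ) : ZMod p) with hNdef
  have hN1 : N 1 = 1 := by simp [hNdef, hn1]
  have hNm : ∀ σ τ, N (σ * τ) = N σ * N τ := by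
    intro σ τ
    obtain ⟨k, hk⟩ := hnm σ τ
    have h3 := congrArg (Int.cast : ℤ → ZMod p) hk
    push_cast at h3
    rw [ZMod.natCast_self, zero_mul, add_zero] at h3
    exact h3
  have hNi : ∀ σ, N σ⁻¹ * N σ = 1 := fun σ => by rw [← hNm, inv_mul_cancel, hN1]
  -- the modulus
  set 𝔫' : Ideal (𝓞 K₁) := ∏ σ : K₁ ≃ₐ[K] K₁, cg σ 𝔫 with hn'def
  have hn'0 : 𝔫' ≠ ⊥ := Finset.prod_ne_zero_iff.2 fun σ _ => cg_ne σ h𝔫
  have hst : ∀ τ : K₁ ≃ₐ[K] K₁, cg τ 𝔫' = 𝔫' := by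
    intro τ
    rw [hn'def, cg_prod]
    apply Fintype.prod_equiv (Equiv.mulLeft τ)
    intro σ
    rw [← cg_mul_apply]
    rfl
  have hcop : ∀ (σ : K₁ ≃ₐ[K] K₁) {I : Ideal (𝓞 K₁)}, I ⊔ 𝔫' = ⊤ → cg σ I ⊔ 𝔫' = ⊤ :=
    fun σ I hI => cg_cop hst σ hI
  obtain ⟨m, η', hη', hdiv⟩ := h1 p K₁ 𝔫' hn'0
  set η : Fin m → Ideal (𝓞 K₁) → ZMod p := fun j I => ∑ σ : K₁ ≃ₐ[K] K₁, N σ⁻¹ * η' j (cg σ I)
    with hηdef
  have hfam : Fam p 𝔫' m η := by
    refine ⟨hn'0, ?_, ?_⟩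
    · intro j I J hI hJ hI' hJ'
      simp only [hηdef]
      rw [← Finset.sum_add_distrib]
      refine Finset.sum_congr rfl fun σ _ => ?_
      rw [cg_mul, hη'.mul j _ _ (cg_ne σ hI) (cg_ne σ hJ) (hcop σ hI') (hcop σ hJ'), mul_add]
    · intro j α hα hα'
      simp only [hηdef]
      refine Finset.sum_eq_zero fun σ _ => ?_
      rw [cg_span, hη'.ray j _ ?_ ?_, mul_zero]
      · intro h
        apply cg_ne σ (I := Ideal.span {α}) (by simpa using hα)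
        rw [cg_span, h, Ideal.span_singleton_eq_bot.2 rfl]
      · have h3 : RingOfIntegers.mapRingHom (σ : K₁ →+* K₁) (α - 1) ∈ cg σ 𝔫' :=
          Ideal.mem_map_of_mem _ hα'
        rw [hst σ, map_sub, map_one] at h3
        exact h3
  have heq : ∀ (j : Fin m) (ρ : K₁ ≃ₐ[K] K₁) (I : Ideal (𝓞 K₁)), η j (cg ρ I) = N ρ * η j I := by
    intro j ρ I
    simp only [hηdef]
    rw [Finset.mul_sum]
    apply Fintype.sum_equiv (Equiv.mulRight ρ)
    intro σ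
    rw [Equiv.coe_mulRight, ← mul_assoc, ← hNm, mul_inv_rev, mul_inv_cancel_left, cg_mul_apply]
  refine ⟨𝔫', m, η, ?_, hst, hfam, ?_, ?_⟩
  · have h3 : cg (1 : K₁ ≃ₐ[K] K₁) 𝔫 ∣ 𝔫' := Finset.dvd_prod_of_mem _ (Finset.mem_univ _)
    rw [cg_one] at h3
    exact Ideal.le_of_dvd h3
  · intro hgt I hI hI'
    -- the sum of the character vanishes
    have hS : ∑ σ : K₁ ≃ₐ[K] K₁, N σ = 0 := by
      have h3 : ∃ ρ : K₁ ≃ₐ[K] K₁, ρ ≠ 1 := by
        rw [← hcard] at hgt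
        exact Fintype.exists_ne_of_one_lt_card hgt 1
      obtain ⟨ρ, hρ⟩ := h3
      have h4 : N ρ ≠ 1 := by
        intro h
        apply hρ
        apply hC.gen
        rw [hn ρ]
        have h5 : n ρ ≡ 1 [MOD p] := by
          have h6 : ((n ρ : ℕ) : ZMod p) = ((1 : ℕ) : ZMod p) := by rw [Nat.cast_one]; exact h
          exact (ZMod.natCast_eq_natCast_iff _ _ _).1 h6
        have h7 : ε ^ n ρ = ε ^ 1 := by
          obtain ⟨u, hu⟩ := hC.prim.isUnit hp.out.ne_zero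
          have h8 : IsPrimitiveRoot u p := IsPrimitiveRoot.coe_units_iff.1 (by rw [hu]; exact hC.prim)
          have h9 : u ^ n ρ = u ^ 1 := by
            rw [pow_eq_pow_iff_modEq, ← h8.eq_orderOf]
            exact h5
          have h10 := congrArg (Units.val) h9
          push_cast at h10
          rw [hu] at h10
          exact h10
        rw [h7, pow_one]
      have h5 : N ρ * ∑ σ : K₁ ≃ₐ[K] K₁, N σ = ∑ σ : K₁ ≃ₐ[K] K₁, N σ := by
        rw [Finset.mul_sum]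
        apply Fintype.sum_equiv (Equiv.mulLeft ρ)
        intro σ
        rw [Equiv.coe_mulLeft, hNm]
      have h6 : (N ρ - 1) * ∑ σ : K₁ ≃ₐ[K] K₁, N σ = 0 := by
        rw [sub_mul, h5, one_mul, sub_self]
      exact (mul_eq_zero.1 h6).resolve_left (sub_ne_zero.2 h4)
    have hS' : ∑ σ : K₁ ≃ₐ[K] K₁, N σ⁻¹ = 0 := by
      rw [← hS]
      exact Fintype.sum_equiv (Equiv.inv _) _ _ fun σ => rfl
    obtain ⟨k', hk'⟩ : p ∣ ∑ σ : K₁ ≃ₐ[K] K₁, n σ⁻¹ := by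
      rw [← ZMod.natCast_eq_zero_iff]
      push_cast
      exact hS'
    obtain ⟨t, k, htk⟩ : ∃ t k : ℕ, g * t = 1 + p * k := by
      obtain ⟨t, -, ht⟩ := Nat.exists_mul_mod_eq_one_of_coprime hgp hp.out.one_lt
      refine ⟨t, g * t / p, ?_⟩
      have h3 := Nat.mod_add_div (g * t) p
      rw [ht] at h3
      exact h3.symm
    have htg : (t : ZMod p) * (g : ZMod p) = 1 := by
      have h3 := congrArg (Nat.cast : ℕ → ZMod p) htk
      push_cast at h3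
      rw [ZMod.natCast_self, zero_mul, add_zero] at h3
      rw [mul_comm, h3]
    have hc0 : ∀ (e : (K₁ ≃ₐ[K] K₁) → ℕ), ∀ σ ∈ (Finset.univ : Finset (K₁ ≃ₐ[K] K₁)),
        cg σ I ^ e σ ≠ ⊥ ∧ cg σ I ^ e σ ⊔ 𝔫' = ⊤ := fun e σ _ =>
      ⟨pow_ne_zero _ (cg_ne σ hI), cop_pow (hcop σ hI') _⟩
    have hη1 : ∀ (j : Fin m) (e : (K₁ ≃ₐ[K] K₁) → ℕ), η j ((∏ σ, cg σ I ^ e σ) ^ t) =
        t * ∑ σ, (e σ : ZMod p) * (N σ * η j I) := by
      intro j e
      have h3 := cop_prod Finset.univ _ (hc0 e)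
      rw [fam_pow hfam j h3.1 h3.2, fam_prod hfam j _ _ (hc0 e)]
      congr 1
      refine Finset.sum_congr rfl fun σ _ => ?_
      rw [fam_pow hfam j (cg_ne σ hI) (hcop σ hI'), heq]
    have hnm1 : ∀ (e : (K₁ ≃ₐ[K] K₁) → ℕ), Ideal.relNorm (𝓞 K) ((∏ σ, cg σ I ^ e σ) ^ t) =
        Ideal.relNorm (𝓞 K) I ^ ((∑ σ, e σ) * t) := by
      intro e
      rw [map_pow, map_prod, pow_mul]
      congr 1
      rw [← Finset.prod_pow_eq_pow_sum]
      refine Finset.prod_congr rfl fun σ _ => ?_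
      rw [map_pow, cg_relNorm]
    constructor
    · have h3 := cop_prod Finset.univ _ (hc0 fun σ => n σ⁻¹)
      refine ⟨(∏ σ, cg σ I ^ n σ⁻¹) ^ t, I ^ (k' * t), pow_ne_zero _ h3.1, cop_pow h3.2 t,
        pow_ne_zero _ hI, cop_pow hI' _, ?_, ?_⟩
      · intro j
        rw [hη1 j fun σ => n σ⁻¹]
        have h4 : ∑ σ : K₁ ≃ₐ[K] K₁, ((n σ⁻¹ : ℕ) : ZMod p) * (N σ * η j I) = g * η j I := by
          have h5 : ∀ σ ∈ (Finset.univ : Finset (K₁ ≃ₐ[K] K₁)),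
              ((n σ⁻¹ : ℕ) : ZMod p) * (N σ * η j I) = η j I := by
            intro σ _
            rw [← mul_assoc]
            change N σ⁻¹ * N σ * η j I = η j I
            rw [hNi, one_mul]
          rw [Finset.sum_congr rfl h5, Finset.sum_const, Finset.card_univ, nsmul_eq_mul]
        rw [h4, ← mul_assoc, htg, one_mul]
      · rw [hnm1 fun σ => n σ⁻¹, hk', map_pow, ← pow_mul]
        congr 1
        ring
    · have h3 := cop_prod Finset.univ _ (hc0 fun _ => 1)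
      refine ⟨(∏ σ, cg σ I ^ 1) ^ t, I ^ k, pow_ne_zero _ h3.1, cop_pow h3.2 t,
        pow_ne_zero _ hI, cop_pow hI' _, ?_, ?_⟩
      · intro j
        rw [hη1 j fun _ => 1]
        have h4 : ∑ σ : K₁ ≃ₐ[K] K₁, ((1 : ℕ) : ZMod p) * (N σ * η j I) = 0 := by
          simp only [Nat.cast_one, one_mul]
          rw [← Finset.sum_mul, hS, zero_mul]
        rw [h4, mul_zero]
      · rw [hnm1 fun _ => 1, Finset.sum_const, Finset.card_univ, smul_eq_mul, mul_one, htk,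
          pow_add, pow_one, map_pow, ← pow_mul]
        congr 2
        ring
  · intro l Q s hQ hnc hsum
    -- the divisor
    set c : HeightOneSpectrum (𝓞 K₁) →₀ ℤ := ∑ i, ∑ σ : K₁ ≃ₐ[K] K₁,
      Finsupp.single (cp σ (Q i)) (s i * (n σ⁻¹ : ℤ)) with hcdef
    set C : HeightOneSpectrum (𝓞 K₁) → ZMod p := fun P => ∑ i, ∑ σ : K₁ ≃ₐ[K] K₁,
      if cp σ (Q i) = P then (s i : ZMod p) * N σ⁻¹ else 0 with hCdef
    have hcp : ∀ (σ : K₁ ≃ₐ[K] K₁) (P : HeightOneSpectrum (𝓞 K₁)), P.asIdeal ⊔ 𝔫' = ⊤ →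
        (cp σ P).asIdeal ⊔ 𝔫' = ⊤ := by
      intro σ P hP
      rw [cp_ideal]
      exact hcop σ hP
    have hcC : ∀ P, ((c P : ℤ) : ZMod p) = C P := by
      intro P
      rw [hcdef, hCdef, Finsupp.finsetSum_apply, Int.cast_sum]
      refine Finset.sum_congr rfl fun i _ => ?_
      rw [Finsupp.finsetSum_apply, Int.cast_sum]
      refine Finset.sum_congr rfl fun σ _ => ?_
      rw [Finsupp.single_apply]
      split_ifs
      · push_cast
        rfl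
      · rw [Int.cast_zero]
    have hcsup : ∀ P, c P ≠ 0 → P.asIdeal ⊔ 𝔫' = ⊤ := by
      intro P hP
      by_contra hno
      apply hP
      rw [hcdef, Finsupp.finsetSum_apply]
      refine Finset.sum_eq_zero fun i _ => ?_
      rw [Finsupp.finsetSum_apply]
      refine Finset.sum_eq_zero fun σ _ => ?_
      rw [Finsupp.single_apply, if_neg]
      rintro rfl
      exact hno (hcp σ _ (hQ i).1)
    have hceq : ∀ (σ : K₁ ≃ₐ[K] K₁) (W : HeightOneSpectrum (𝓞 K₁)),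
        C (cp σ⁻¹ W) = N σ * C W := by
      intro σ W
      simp only [hCdef]
      rw [Finset.mul_sum]
      refine Finset.sum_congr rfl fun i _ => ?_
      rw [Finset.mul_sum]
      apply Fintype.sum_equiv (Equiv.mulLeft σ)
      intro τ
      rw [Equiv.coe_mulLeft]
      have h3 : cp τ (Q i) = cp σ⁻¹ W ↔ cp (σ * τ) (Q i) = W := by
        constructor
        · intro h
          rw [cp_mul, h, ← cp_mul, mul_inv_cancel, cp_one]
        · rintro rfl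
          rw [← cp_mul, inv_mul_cancel_left]
      by_cases h4 : cp (σ * τ) (Q i) = W
      · rw [if_pos (h3.2 h4), if_pos h4, mul_left_comm, ← hNm, mul_inv_rev]
        congr 1
        rw [hNm σ, hNm τ⁻¹, mul_comm (N τ⁻¹), ← mul_assoc, ← hNm, mul_inv_cancel, hN1, one_mul]
      · rw [if_neg (fun h => h4 (h3.1 h)), if_neg h4, mul_zero]
    have hdual : ∀ j, ∑ P ∈ c.support, ((c P : ℤ) : ZMod p) * η' j P.asIdeal = 0 := by
      intro j
      set Lj : (HeightOneSpectrum (𝓞 K₁) →₀ ℤ) →+ ZMod p := Finsupp.liftAddHom fun P =>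
        (AddMonoidHom.mulRight (η' j P.asIdeal)).comp (Int.castAddHom (ZMod p)) with hLj
      have h3 : ∑ P ∈ c.support, ((c P : ℤ) : ZMod p) * η' j P.asIdeal = Lj c := rfl
      have h4 : ∀ (P : HeightOneSpectrum (𝓞 K₁)) (a : ℤ),
          Lj (Finsupp.single P a) = (a : ZMod p) * η' j P.asIdeal := by
        intro P a
        rw [hLj, Finsupp.liftAddHom_apply_single]
        rfl
      rw [h3, hcdef, map_sum, ← hsum j]
      refine Finset.sum_congr rfl fun i _ => ?_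
      rw [map_sum]
      simp only [hηdef]
      rw [Finset.mul_sum]
      refine Finset.sum_congr rfl fun σ _ => ?_
      rw [h4, cp_ideal]
      push_cast
      rw [mul_assoc]
    obtain ⟨β, hβ0, hβ1, hβ⟩ := hdiv c hcsup hdual
    have hβK : (β : K₁) ≠ 0 := by
      intro h
      exact hβ0 (RingOfIntegers.ext (by simpa using h))
    set b : 𝓞 K₁ := ∏ σ : K₁ ≃ₐ[K] K₁,
      RingOfIntegers.mapRingHom (σ : K₁ →+* K₁) β ^ (n σ⁻¹) with hbdef
    have hcoe : (b : K₁) = ∏ σ : K₁ ≃ₐ[K] K₁, σ (β : K₁) ^ (n σ⁻¹) := by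
      rw [hbdef]
      change algebraMap (𝓞 K₁) K₁ _ = _
      rw [map_prod]
      exact Finset.prod_congr rfl fun σ _ => by rw [map_pow]; rfl
    have hσβ : ∀ σ : K₁ ≃ₐ[K] K₁, σ (β : K₁) ≠ 0 := fun σ =>
      (map_ne_zero_iff _ (AlgEquiv.injective σ)).2 hβK
    have hb1 : b - 1 ∈ 𝔫' := by
      rw [← Ideal.Quotient.eq, map_one, hbdef, map_prod]
      refine Finset.prod_eq_one fun σ _ => ?_
      rw [map_pow]
      have h3 : RingOfIntegers.mapRingHom (σ : K₁ →+* K₁) (β - 1) ∈ cg σ 𝔫' :=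
        Ideal.mem_map_of_mem _ hβ1
      rw [hst σ, map_sub, map_one] at h3
      rw [(Ideal.Quotient.eq).2 h3, map_one, one_pow]
    have hord : ∀ W : HeightOneSpectrum (𝓞 K₁),
        ordv W (b : K₁) = ∑ σ : K₁ ≃ₐ[K] K₁, (n σ⁻¹ : ℤ) * ordv (cp σ⁻¹ W) (β : K₁) := by
      intro W
      rw [hcoe, ordv_prod W _ _ fun σ _ => pow_ne_zero _ (hσβ σ)]
      refine Finset.sum_congr rfl fun σ _ => ?_
      rw [ordv_pow W (hσβ σ), ordv_cp]
    have hordC : ∀ W : HeightOneSpectrum (𝓞 K₁), W.asIdeal ⊔ 𝔫' = ⊤ →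
        ((ordv W (b : K₁) : ℤ) : ZMod p) = g * C W := by
      intro W hW
      rw [hord W, Int.cast_sum]
      have h5 : ∀ σ ∈ (Finset.univ : Finset (K₁ ≃ₐ[K] K₁)),
          (((n σ⁻¹ : ℤ) * ordv (cp σ⁻¹ W) (β : K₁) : ℤ) : ZMod p) = C W := by
        intro σ _
        have h6 := hβ (cp σ⁻¹ W) (hcp σ⁻¹ W hW)
        rw [← ZMod.intCast_zmod_eq_zero_iff_dvd, Int.cast_sub, sub_eq_zero, hcC, hceq] at h6
        rw [Int.cast_mul, h6, ← mul_assoc, Int.cast_natCast]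
        change N σ⁻¹ * N σ * C W = C W
        rw [hNi, one_mul]
      rw [Finset.sum_congr rfl h5, Finset.sum_const, Finset.card_univ, nsmul_eq_mul]
    refine ⟨b, ?_, hb1, ?_, ?_⟩
    · intro h
      have h3 : (b : K₁) = 0 := by rw [h]; rfl
      rw [hcoe] at h3
      exact (Finset.prod_ne_zero_iff.2 fun σ _ => pow_ne_zero _ (hσβ σ)) h3
    · rw [hcoe]
      exact om_prod hn hnm hβK
    · intro W
      constructor
      · rintro ⟨i, hi⟩ hdvd
        obtain ⟨ρ, rfl⟩ := (conj_iff _ _).1 hi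
        have hW := hcp ρ _ (hQ i).1
        have h3 := hordC _ hW
        rw [(ZMod.intCast_zmod_eq_zero_iff_dvd _ p).2 hdvd] at h3
        have h4 : C (cp ρ (Q i)) = (s i : ZMod p) * N ρ⁻¹ := by
          simp only [hCdef]
          rw [Finset.sum_eq_single i, Finset.sum_eq_single ρ, if_pos rfl]
          · intro τ _ hτ
            rw [if_neg]
            intro h
            exact hτ (free_inj (hQ i).2.1 h)
          · intro h
            exact absurd (Finset.mem_univ _) h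
          · intro j _ hj
            refine Finset.sum_eq_zero fun τ _ => ?_
            rw [if_neg]
            intro h
            apply hnc i j (Ne.symm hj)
            rw [conj_iff]
            refine ⟨ρ⁻¹ * τ, ?_⟩
            rw [cp_mul, h, ← cp_mul, inv_mul_cancel, cp_one]
          · intro h
            exact absurd (Finset.mem_univ _) h
        rw [h4] at h3
        have h5 : (s i : ZMod p) ≠ 0 := by
          intro h
          exact (hQ i).2.2 ((ZMod.intCast_zmod_eq_zero_iff_dvd _ p).1 h)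
        have h6 : N ρ⁻¹ ≠ 0 := left_ne_zero_of_mul_eq_one (hNi ρ)
        exact mul_ne_zero hg0 (mul_ne_zero h5 h6) h3.symm
      · intro hno
        by_cases hW : W.asIdeal ⊔ 𝔫' = ⊤
        · rw [← ZMod.intCast_zmod_eq_zero_iff_dvd, hordC W hW]
          have h4 : C W = 0 := by
            simp only [hCdef]
            refine Finset.sum_eq_zero fun i _ => Finset.sum_eq_zero fun σ _ => ?_
            rw [if_neg]
            intro h
            exact hno i ((conj_iff _ _).2 ⟨σ, h.symm⟩)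
          rw [h4, mul_zero]
        · have h3 : 𝔫' ≤ W.asIdeal := by
            have h4 := (W.isMaximal).eq_of_le hW le_sup_left
            rw [h4]
            exact le_sup_right
          have h4 : W.valuation K₁ ((b : K₁) - 1) < 1 := by
            have h5 : (b : K₁) - 1 = algebraMap (𝓞 K₁) K₁ (b - 1) := by rw [map_sub, map_one]
            rw [h5]
            exact (HeightOneSpectrum.valuation_lt_one_iff_mem W _).2 (h3 hb1)
          have h5 : W.valuation K₁ (b : K₁) = 1 := by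
            have h6 : (b : K₁) = ((b : K₁) - 1) + 1 := by ring
            rw [h6]
            rw [Valuation.map_add_eq_of_lt_right]
            · exact map_one _
            · rw [map_one]
              exact h4
          unfold ordv
          rw [h5]
          simp

end Pool.Agent.Helper32.LE
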